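import Pool.Agent.H.MP_b0b663_an.A

set_option autoImplicit false

namespace Pool.Agent.H.MP_dc5a1d_an

open Filter Topology Set Metric Submodule

variable {X : Type} [NormedAddCommGroup X] [NormedSpace ℝ X]

lemma corr {V W : Type} [NormedAddCommGroup V] [NormedSpace ℝ V] [NormedAddCommGroup W]
    [NormedSpace ℝ W] [FiniteDimensional ℝ W] (T : V →ₗ[ℝ] W) {α : Type} {l : Filter α}
    {v : α → V} (hv : Tendsto (fun a => T (v a)) l (𝓝 0)) {η : ℝ} (hη : 0 < η) :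
    ∀ᶠ a in l, ∃ k, T k = T (v a) ∧ ‖k‖ ≤ η := by
  obtain ⟨σ, hσ⟩ := T.rangeRestrict.exists_rightInverse_of_surjective T.range_rangeRestrict
  have h1 : Tendsto (fun a => T.rangeRestrict (v a)) l (𝓝 0) := tendsto_subtype_rng.2 hv
  have h2 := (σ.continuous_of_finiteDimensional.tendsto' 0 0 (map_zero σ)).comp h1
  filter_upwards [h2.norm.eventually (ge_mem_nhds (show ‖(0 : V)‖ < η by simpa using hη))] with a ha
  exact ⟨_, congrArg Subtype.val (DFunLike.congr_fun hσ (T.rangeRestrict (v a))), ha⟩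

lemma helly (z : StrongDual ℝ (StrongDual ℝ X)) (hz : ‖z‖ = 1) {S : Set (StrongDual ℝ X)}
    (hS : S.Finite) {δ : ℝ} (hδ : 0 < δ) : ∃ t : X, ‖t‖ ≤ 1 + δ ∧ ∀ g ∈ S, g t = z g := by
  obtain ⟨p, hp1, hp⟩ := Pool.Agent.H.MP_b0b663_an.ex_ultra z hz
  have := hS.fintype
  let T : X →ₗ[ℝ] (S → ℝ) := LinearMap.pi fun g => g.1.toLinearMap
  have h1 : Tendsto T p (𝓝 fun g => z g.1) := tendsto_pi_nhds.2 fun g => hp g.1
  obtain ⟨x0, hx0⟩ : (fun g : S => z g.1) ∈ LinearMap.range T :=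
    (LinearMap.range T).closed_of_finiteDimensional.mem_of_tendsto h1
      (Eventually.of_forall fun x => ⟨x, rfl⟩)
  have h2 : Tendsto (fun x => T (x - x0)) p (𝓝 0) := by
    simpa only [map_sub, hx0, sub_self] using h1.sub_const (T x0)
  obtain ⟨x, h3, k, h4, h5⟩ := (hp1.and (corr T h2 hδ)).exists
  refine ⟨x - k, (norm_sub_le _ _).trans (by linarith), fun g hg => ?_⟩
  have h6 : T (x - k) = fun g : S => z g.1 := by rw [map_sub, h4, map_sub, hx0]; abel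
  exact congrFun h6 ⟨g, hg⟩

lemma best {Φ : Submodule ℝ X} (hΦ : Φ.FG) (f : X) :
    ∃ G ∈ Φ, ∀ y ∈ Φ, ‖f - G‖ ≤ ‖f - y‖ := by
  have : FiniteDimensional ℝ Φ := (Submodule.fg_iff_finiteDimensional Φ).1 hΦ
  have := FiniteDimensional.proper_real Φ
  obtain ⟨G, hG, h⟩ := (isCompact_closedBall (0 : Φ) (2 * ‖f‖)).exists_isMinOn
    (f := fun y : Φ => ‖f - y‖) ⟨0, by simp⟩ (by fun_prop)
  refine ⟨G, G.2, fun y hy => ?_⟩
  by_cases h1 : ‖y‖ ≤ 2 * ‖f‖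
  · exact h (a := ⟨y, hy⟩) (mem_closedBall_zero_iff.2 h1)
  · have h2 : ‖f - G‖ ≤ ‖f - (0 : Φ)‖ := h (a := 0) (by simp)
    have h3 := norm_sub_norm_le y f
    rw [norm_sub_rev] at h3
    simp only [ZeroMemClass.coe_zero, sub_zero] at h2
    linarith

lemma norming {Φ : Submodule ℝ X} {f G : X} (hG : G ∈ Φ) (h : ∀ y ∈ Φ, ‖f - G‖ ≤ ‖f - y‖)
    (h0 : f - G ≠ 0) : ∃ F : StrongDual ℝ X, ‖F‖ = 1 ∧ F (f - G) = ‖f - G‖ ∧ ∀ y ∈ Φ, F y = 0 := by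
  obtain ⟨g, g1, g2⟩ := exists_dual_vector'' ℝ (Submodule.Quotient.mk (f - G) : X ⧸ Φ)
  let q : X →L[ℝ] X ⧸ Φ := Φ.mkQ.mkContinuous 1 fun x => by
    simpa using Submodule.Quotient.norm_mk_le Φ x
  have e1 : ‖(Submodule.Quotient.mk (f - G) : X ⧸ Φ)‖ = ‖f - G‖ := by
    refine (Submodule.Quotient.norm_mk_le Φ _).antisymm (le_of_forall_pos_le_add fun ε hε => ?_)
    obtain ⟨m, m1, m2⟩ := Submodule.Quotient.norm_mk_lt (Submodule.Quotient.mk (f - G) : X ⧸ Φ) hε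
    have := h (G - (m - (f - G))) (sub_mem hG ((Submodule.Quotient.eq Φ).1 m1))
    rw [show f - (G - (m - (f - G))) = m by abel] at this
    linarith
  have e2 : ∀ x, ‖g.comp q x‖ ≤ 1 * ‖x‖ := fun x =>
    (g.le_opNorm _).trans (mul_le_mul g1 (Submodule.Quotient.norm_mk_le Φ x) (norm_nonneg _)
      zero_le_one)
  have e3 : g.comp q (f - G) = ‖f - G‖ := g2.trans e1
  refine ⟨g.comp q, le_antisymm ((g.comp q).opNorm_le_bound zero_le_one e2) ?_, e3,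
    fun y hy => ?_⟩
  · have := (g.comp q).le_opNorm (f - G)
    rw [e3, norm_norm] at this
    exact (le_mul_iff_one_le_left (norm_pos_iff.2 h0)).1 this
  · change g (Submodule.Quotient.mk y) = 0
    rw [(Submodule.Quotient.mk_eq_zero Φ).2 hy, map_zero]

/-- convergence of every infinite realization -/
def Conv (X : Type) [NormedAddCommGroup X] [NormedSpace ℝ X] (t : ℝ) : Prop :=
  ∀ D : Set X, (∀ g ∈ D, ‖g‖ = 1) → Dense (span ℝ D : Set X) →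
    ∀ (f : X) (φ G : ℕ → X) (F : ℕ → StrongDual ℝ X), G 0 = 0 →
      (∀ m, f - G m ≠ 0 ∧ ‖F m‖ = 1 ∧ F m (f - G m) = ‖f - G m‖ ∧ φ m ∈ D ∧
        (∀ g ∈ D, t * |F m g| ≤ |F m (φ m)|) ∧ G (m + 1) ∈ span ℝ (φ '' Iic m) ∧
        ∀ y ∈ span ℝ (φ '' Iic m), ‖f - G (m + 1)‖ ≤ ‖f - y‖) →
      Tendsto (fun m => ‖f - G m‖) atTop (𝓝 0)

lemma equalize {x e : X} (he : ‖e‖ = 1) {M : ℝ} (hx : ‖x‖ ≤ M) :
    ∃ y : ℝ, |y| ≤ M ∧ ‖x + y • e‖ = M := by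
  have M0 : 0 ≤ M := (norm_nonneg x).trans hx
  have hc : Continuous fun y : ℝ => ‖x + y • e‖ := by fun_prop
  have h1 : 2 * M ≤ ‖x + M • e‖ + ‖x + (-M) • e‖ := by
    have := norm_sub_le (x + M • e) (x + (-M) • e)
    rwa [show x + M • e - (x + (-M) • e) = (2 * M) • e by module, norm_smul, he, mul_one,
      Real.norm_of_nonneg (by linarith)] at this
  by_cases h : M ≤ ‖x + M • e‖
  · obtain ⟨y, hy, h2⟩ := intermediate_value_Icc M0 hc.continuousOn (⟨by simpa using hx, h⟩ :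
      M ∈ Icc ‖x + (0 : ℝ) • e‖ ‖x + M • e‖)
    exact ⟨y, abs_le.2 ⟨by linarith [hy.1], hy.2⟩, h2⟩
  · obtain ⟨y, hy, h2⟩ := intermediate_value_Icc' (show -M ≤ 0 by linarith) hc.continuousOn
      (⟨by simpa using hx, by linarith⟩ : M ∈ Icc ‖x + (0 : ℝ) • e‖ ‖x + (-M) • e‖)
    exact ⟨y, abs_le.2 ⟨hy.1, by linarith [hy.2]⟩, h2⟩

lemma realize {t : ℝ} (ht : t ≤ 1) {c M : ℝ} (hc : 0 < c) (f : X) (φ G : ℕ → X)
    (F : ℕ → StrongDual ℝ X) (G0 : G 0 = 0) (h1 : ∀ m, 1 ≤ ‖f - G m‖) (h2 : ∀ m, ‖F m‖ = 1)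
    (h3 : ∀ m, F m (f - G m) = ‖f - G m‖) (h4 : ∀ m, G (m + 1) ∈ span ℝ (φ '' Iic m))
    (h5 : ∀ m, ∀ y ∈ span ℝ (φ '' Iic m), ‖f - G (m + 1)‖ ≤ ‖f - y‖)
    (h6 : ∀ m, F (m + 1) (φ 0) = 0) (h7 : ∀ m, c ≤ |F m (φ m)|)
    (h8 : ∀ m j, |F m (φ j)| ≤ |F m (φ m)|) (h9 : ∀ m, ‖φ m‖ ≤ M) : ¬Conv X t := by
  intro hC
  have Fle : ∀ m x, |F m x| ≤ ‖x‖ := fun m x => by simpa [h2] using (F m).le_opNorm x
  have p0 : F 0 (φ 0) ≠ 0 := abs_pos.1 (hc.trans_le (h7 0))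
  have n0 : 0 < ‖φ 0‖ := (abs_pos.2 p0).trans_le (Fle 0 _)
  have cM : c ≤ M := (h7 0).trans ((Fle 0 _).trans (h9 0))
  have M0 : 0 < 2 * M := by linarith
  obtain ⟨e, he⟩ : ∃ e, e = ‖φ 0‖⁻¹ • φ 0 := ⟨_, rfl⟩
  have e1 : ‖e‖ = 1 := by rw [he, norm_smul, norm_inv, norm_norm, inv_mul_cancel₀ n0.ne']
  have e2 : φ 0 = ‖φ 0‖ • e := by rw [he, smul_inv_smul₀ n0.ne']
  have e3 : ∀ m, F (m + 1) e = 0 := fun m => by rw [he, map_smul, h6, smul_zero]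
  let D : Set X := insert e {g | ‖g‖ = 1 ∧ ∃ (x : X) (y : ℝ), g = (2 * M)⁻¹ • (x + y • e) ∧
    F 0 x = 0 ∧ |y| ≤ 2 * M ∧ ∀ m, |F (m + 1) x| ≤ |F (m + 1) (φ (m + 1))|}
  have mk : ∀ x : X, ‖x‖ ≤ 2 * M → F 0 x = 0 → (∀ m, |F (m + 1) x| ≤ |F (m + 1) (φ (m + 1))|) →
      ∃ y : ℝ, (2 * M)⁻¹ • (x + y • e) ∈ D := fun x a1 a2 a3 => by
    obtain ⟨y, y1, y2⟩ := equalize e1 a1
    refine ⟨y, Or.inr ⟨?_, x, y, rfl, a2, y1, a3⟩⟩
    rw [norm_smul, y2, norm_inv, Real.norm_of_nonneg M0.le, inv_mul_cancel₀ M0.ne']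
  have mk2 : ∀ j, ∃ y : ℝ, (2 * M)⁻¹ • (φ j + y • e) ∈ D := fun j => by
    obtain ⟨y, hy⟩ := mk (φ j - (F 0 (φ j) / F 0 (φ 0)) • φ 0) ((norm_sub_le _ _).trans (by
      have : |F 0 (φ j) / F 0 (φ 0)| ≤ 1 := by
        rw [abs_div, div_le_one (abs_pos.2 p0)]; exact h8 0 j
      rw [norm_smul, Real.norm_eq_abs]
      nlinarith [h9 j, h9 0])) (by simp [p0]) fun m => by simpa [h6] using h8 (m + 1) j
    refine ⟨y - F 0 (φ j) / F 0 (φ 0) * ‖φ 0‖, ?_⟩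
    convert hy using 2
    rw [sub_smul, mul_smul, ← e2]
    abel
  choose y hy using mk2
  let ψ : ℕ → X := fun j => if j = 0 then e else (2 * M)⁻¹ • (φ j + y j • e)
  have sp : ∀ m, span ℝ (ψ '' Iic m) = span ℝ (φ '' Iic m) := fun m => by
    have a1 : e ∈ span ℝ (ψ '' Iic m) := subset_span ⟨0, by simp, rfl⟩
    have a2 : e ∈ span ℝ (φ '' Iic m) := he ▸ smul_mem _ _ (subset_span ⟨0, by simp, rfl⟩)
    refine le_antisymm (span_le.2 ?_) (span_le.2 ?_)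
    · rintro _ ⟨j, hj, rfl⟩
      by_cases h : j = 0
      · simpa [ψ, h] using a2
      · simp only [ψ, h, if_false]
        exact smul_mem _ _ (add_mem (subset_span ⟨j, hj, rfl⟩) (smul_mem _ _ a2))
    · rintro _ ⟨j, hj, rfl⟩
      by_cases h : j = 0
      · rw [h, e2]; exact smul_mem _ _ a1
      · have : φ j = (2 * M) • ψ j - y j • e := by
          simp only [ψ, h, if_false]
          rw [smul_inv_smul₀ M0.ne', add_sub_cancel_right]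
        rw [this]
        exact sub_mem (smul_mem _ _ (subset_span ⟨j, hj, rfl⟩)) (smul_mem _ _ a1)
  have := hC D (by
    rintro g (rfl | hg)
    exacts [e1, hg.1]) (by
    have a1 : e ∈ span ℝ D := subset_span (Or.inl rfl)
    have a2 : ∀ x, F 0 x = 0 → x ∈ span ℝ D := fun x hx => by
      have a3 : 0 < c / (‖x‖ + 1) := by positivity
      have a4 : ‖(c / (‖x‖ + 1)) • x‖ ≤ c := by
        rw [norm_smul, Real.norm_of_nonneg a3.le, div_mul_eq_mul_div, div_le_iff₀ (by positivity)]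
        nlinarith
      obtain ⟨y, hy⟩ := mk _ (a4.trans (by linarith)) (by simp [hx])
        fun m => (Fle _ _).trans (a4.trans (h7 _))
      have a5 := sub_mem (smul_mem _ (2 * M) (subset_span hy)) (smul_mem _ y a1)
      rw [smul_inv_smul₀ M0.ne', add_sub_cancel_right] at a5
      exact (smul_mem_iff _ a3.ne').1 a5
    have : span ℝ D = ⊤ := eq_top_iff.2 fun x _ => by
      have a7 : φ 0 ∈ span ℝ D := by rw [e2]; exact smul_mem _ _ a1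
      have a6 := add_mem (a2 (x - (F 0 x / F 0 (φ 0)) • φ 0) (by simp [p0]))
        (smul_mem _ (F 0 x / F 0 (φ 0)) a7)
      rwa [sub_add_cancel] at a6
    rw [this]
    exact dense_univ) f ψ G F G0 fun m => ⟨norm_pos_iff.1 (by linarith [h1 m]), h2 m, h3 m, by
      by_cases h : m = 0
      · simp [ψ, h, D]
      · simpa only [ψ, h, if_false] using hy m, fun g hg => ?_, by rw [sp]; exact h4 m,
      by rw [sp]; exact h5 m⟩
  · have h := (this.eventually (gt_mem_nhds one_pos)).exists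
    obtain ⟨m, hm⟩ := h
    linarith [h1 m]
  refine (mul_le_of_le_one_left (abs_nonneg _) ht).trans ?_
  have M1 : |(2 * M)⁻¹| = (2 * M)⁻¹ := abs_of_pos (inv_pos.2 M0)
  rcases hg with rfl | ⟨-, x, y', rfl, a1, a2, a3⟩
  · rcases m with _ | m
    · simp [ψ]
    · simp [e3]
  · rcases m with _ | m
    · simp only [ψ, if_true, map_smul, map_add, a1, zero_add, smul_eq_mul, abs_mul, M1]
      rw [inv_mul_le_iff₀ M0]
      gcongr
    · simp only [ψ, m.succ_ne_zero, if_false, map_smul, map_add, e3, smul_eq_mul, mul_zero,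
        add_zero, abs_mul, M1]
      exact mul_le_mul_of_nonneg_left (a3 m) (inv_pos.2 M0).le

lemma chain {t : ℝ} (ht : t ≤ 1) {c M : ℝ} (hc : 0 < c) (f : X)
    (P : Submodule ℝ X → Set (StrongDual ℝ X × ℝ) → Prop) (P0 : P ⊥ ∅)
    (P1 : ∀ Φ S, P Φ S → ∀ y ∈ Φ, 1 ≤ ‖f - y‖)
    (P2 : ∀ Φ S, Φ.FG → S.Finite → P Φ S → ∀ (G : X) (F : StrongDual ℝ X), G ∈ Φ → ‖F‖ = 1 →
      F f = ‖f - G‖ → (∀ y ∈ Φ, F y = 0) → ∃ φ, ‖φ‖ ≤ M ∧ c ≤ |F φ| ∧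
        (∀ p ∈ S, |p.1 φ| ≤ p.2) ∧ P (Φ ⊔ span ℝ {φ}) (insert (F, |F φ|) S)) : ¬Conv X t := by
  let St := {s : Submodule ℝ X × Set (StrongDual ℝ X × ℝ) // s.1.FG ∧ s.2.Finite ∧ P s.1 s.2}
  have step : ∀ s : St, ∃ (s' : St) (G φ : X) (F : StrongDual ℝ X), G ∈ s.1.1 ∧
      (∀ y ∈ s.1.1, ‖f - G‖ ≤ ‖f - y‖) ∧ ‖F‖ = 1 ∧ F (f - G) = ‖f - G‖ ∧ (∀ y ∈ s.1.1, F y = 0) ∧
      ‖φ‖ ≤ M ∧ c ≤ |F φ| ∧ (∀ p ∈ s.1.2, |p.1 φ| ≤ p.2) ∧ s'.1.1 = s.1.1 ⊔ span ℝ {φ} ∧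
      s'.1.2 = insert (F, |F φ|) s.1.2 := by
    rintro ⟨⟨Φ, S⟩, a1, a2, a3⟩
    obtain ⟨G, G1, G2⟩ := best a1 f
    obtain ⟨F, F1, F2, F3⟩ := norming G1 G2 (norm_pos_iff.1 (by linarith [P1 Φ S a3 G G1]))
    obtain ⟨φ, b1, b2, b3, b4⟩ := P2 Φ S a1 a2 a3 G F G1 F1
      (by rw [← F2, map_sub, F3 G G1, sub_zero]) F3
    exact ⟨⟨(_, _), a1.sup (fg_span_singleton φ), a2.insert _, b4⟩, G, φ, F, G1, G2, F1, F2, F3,
      b1, b2, b3, rfl, rfl⟩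
  choose nx G φ F k1 k2 k3 k4 k5 k6 k7 k8 k9 k10 using step
  let s : ℕ → St := fun n => nx^[n] ⟨(⊥, ∅), fg_bot, finite_empty, P0⟩
  have hs : ∀ n, s (n + 1) = nx (s n) := fun n => Function.iterate_succ_apply' _ _ _
  have e1 : ∀ n, (s n).1.1 = span ℝ ((fun m => φ (s m)) '' Iio n) := fun n => by
    induction n with
    | zero => simp [s]
    | succ n ih =>
      rw [hs, k9, ih, ← span_union, show Iio (n + 1) = insert n (Iio n) from
        Set.ext fun x => by simp [Nat.lt_succ_iff_lt_or_eq, or_comm], image_insert_eq, union_comm]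
      rfl
  have e2 : ∀ m, (s (m + 1)).1.1 = span ℝ ((fun m => φ (s m)) '' Iic m) := fun m => by
    rw [e1, show Iio (m + 1) = Iic m from Set.ext fun x => Nat.lt_succ_iff]
  have e3 : ∀ m j, m < j → (F (s m), |F (s m) (φ (s m))|) ∈ (s j).1.2 := fun m j h => by
    induction h with
    | refl => rw [hs, k10]; exact mem_insert _ _
    | step _ ih => rw [hs, k10]; exact mem_insert_of_mem _ ih
  have e4 : ∀ m j, j < m → F (s m) (φ (s j)) = 0 := fun m j h =>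
    k5 _ _ (e1 m ▸ subset_span ⟨j, h, rfl⟩)
  refine realize ht hc f (fun m => φ (s m)) (fun m => G (s m)) (fun m => F (s m)) (k1 (s 0))
    (fun m => P1 _ _ (s m).2.2.2 _ (k1 _)) (fun m => k3 _) (fun m => k4 _)
    (fun m => e2 m ▸ k1 _) (fun m => e2 m ▸ k2 _) (fun m => e4 _ _ m.succ_pos) (fun m => k7 _)
    (fun m j => ?_) fun m => k6 _
  rcases lt_trichotomy m j with h | rfl | h
  · exact k8 _ _ (e3 m j h)
  · exact le_rfl
  · simp [e4 m j h]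

end Pool.Agent.H.MP_dc5a1d_an
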