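import Pool.Agent.H.MP_dc5a1d_an.A

set_option autoImplicit false

namespace Pool.Agent.H.MP_dc5a1d_an

open Filter Topology Set Metric Submodule

variable {X : Type} [NormedAddCommGroup X] [NormedSpace ℝ X]

/-- far functionals with handles, close to `H` also at `z` -/
def DataA (H : StrongDual ℝ X) (z : StrongDual ℝ (StrongDual ℝ X)) (c : ℝ) : Prop :=
  ∀ E : Submodule ℝ X, E.FG → ∀ S : Set (StrongDual ℝ X), S.Finite → ∀ η : ℝ, 0 < η →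
    ∃ (F : StrongDual ℝ X) (d : X), ‖F‖ ≤ 1 + η ∧ (∀ x ∈ E, F x = H x) ∧ z F = 1 ∧ ‖d‖ ≤ 1 ∧
      F d = c ∧ H d = 0 ∧ ∀ g ∈ S, g d = 0

variable {H : StrongDual ℝ X} {z : StrongDual ℝ (StrongDual ℝ X)} {c : ℝ}

lemma extA (hD : DataA H z c) (c0 : 0 < c) {Φ : Submodule ℝ X} (hΦ : Φ.FG)
    (hH : ∀ y ∈ Φ, H y = 0) {G : StrongDual ℝ X} (G0 : ∀ y ∈ Φ, G y = 0) (Gz : z G = 1)
    {l γ ε : ℝ} (Gn : ‖G‖ ≤ 1 + ε) (ε0 : 0 ≤ ε) (ε1 : ε < l * γ / 8) (γ0 : c / 5 ≤ γ)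
    {w : X} (Gw : G w = γ) (Hw : H w = 0) {A : Set X} (hA : A.Finite)
    {S : Set (StrongDual ℝ X)} (hS : S.Finite) :
    ∃ (d : X) (G' : StrongDual ℝ X) (γ' ε' : ℝ), H d = 0 ∧ ‖d‖ ≤ 1 ∧ (∀ g ∈ S, g d = 0) ∧
      (∀ y ∈ Φ, G' y = 0) ∧ G' (w - (4 / 5 : ℝ) • d) = 0 ∧ G' d = γ' ∧
      (∀ x ∈ A, G x = H x → G' x = H x) ∧ z G' = 1 ∧ ‖G'‖ ≤ 1 + ε' ∧ 0 ≤ ε' ∧
      ε' < 4 / 5 * l * γ' / 8 ∧ c / 5 ≤ γ' ∧ γ' ≤ c := by
  have h0 : 0 < 4 / 5 * c + γ := by linarith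
  obtain ⟨a, ha⟩ : ∃ a, a * (4 / 5 * c + γ) = 4 / 5 * c := ⟨_, div_mul_cancel₀ _ h0.ne'⟩
  have a0 : 0 < a := by nlinarith
  have a1 : a ≤ 4 / 5 := by nlinarith
  obtain ⟨F, d, F1, F2, F3, d1, d2, d3, d4⟩ := hD (Φ ⊔ span ℝ (insert w A))
    (hΦ.sup (fg_span (hA.insert w))) (insert G S) (hS.insert G) (a * (l * γ / 8 - ε) / 2)
    (by have := sub_pos.2 ε1; positivity)
  have F4 : ∀ x ∈ insert w A, F x = H x := fun x hx => F2 x (mem_sup_right (subset_span hx))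
  have d5 := d4 G (mem_insert _ _)
  have η0 : 0 < a * (l * γ / 8 - ε) / 2 := by have := sub_pos.2 ε1; positivity
  refine ⟨d, a • G + (1 - a) • F, (1 - a) * c, a * ε + a * (l * γ / 8 - ε) / 2, d3, d1,
    fun g hg => d4 g (mem_insert_of_mem _ hg), fun y hy => ?_, ?_, by simp [d5, d2],
    fun x hx h => ?_, by simp [Gz, F3], ?_, by positivity, ?_, by nlinarith, by nlinarith⟩
  · simp [G0 y hy, F2 y (mem_sup_left hy), hH y hy]
  · simp only [add_apply, smul_apply, map_sub, map_smul, Gw, d5, d2, F4 w (mem_insert _ _), Hw,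
      smul_eq_mul]
    linarith
  · simp only [add_apply, smul_apply, h, F4 x (mem_insert_of_mem _ hx), smul_eq_mul]
    ring
  · refine (norm_add_le _ _).trans ?_
    rw [norm_smul, norm_smul, Real.norm_of_nonneg a0.le, Real.norm_of_nonneg (by linarith)]
    have e1 : a * ‖G‖ ≤ a * (1 + ε) := by gcongr
    have e2 : (1 - a) * ‖F‖ ≤ (1 - a) * (1 + a * (l * γ / 8 - ε) / 2) :=
      mul_le_mul_of_nonneg_left F1 (by linarith)
    nlinarith [mul_pos a0 η0]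
  · have e1 : 4 / 5 * l * ((1 - a) * c) / 8 = a * (l * γ / 8) := by linear_combination (-l / 8) * ha
    rw [e1]
    nlinarith

/-- the invariant of the gear construction -/
structure InvA (H : StrongDual ℝ X) (z : StrongDual ℝ (StrongDual ℝ X)) (c : ℝ) (f : X)
    (Φ : Submodule ℝ X) (S : Set (StrongDual ℝ X × ℝ)) (u t d v : X) (l β γ ε q : ℝ)
    (G : StrongDual ℝ X) : Prop where
  hΦ : ∀ y ∈ Φ, H y = 0
  hS : ∀ p ∈ S, ‖p.1‖ ≤ 1 ∧ c / 70 ≤ p.2 ∧ p.1 d = 0 ∧ |p.1 v| ≤ p.2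
  r1 : f - (u + l • d) ∈ Φ
  r2 : u - t - β • v ∈ Φ
  Hu : H u = 1
  Ht : H t = 1
  Hd : H d = 0
  Hv : H v = 0
  nd : ‖d‖ ≤ 1
  nv : ‖v‖ ≤ 6
  l0 : 0 < l
  l1 : l ≤ 1
  lβ : l ≤ β
  γ0 : c / 5 ≤ γ
  γ1 : γ ≤ c
  q0 : 0 < q
  q1 : q * β ^ 2 ≤ l ^ 3
  nu : ‖u‖ ≤ 1 + c / 20 * q
  nt : ‖t‖ ≤ 1 + c / 20 * ((4 / 5 * q) ^ 3 / (210 / c) ^ 2)
  G0 : ∀ y ∈ Φ, G y = 0
  Gu : G u = 1
  Gt : G t = 1
  Gz : z G = 1
  Gd : G d = γ
  Gv : G v = 0
  Gn : ‖G‖ ≤ 1 + ε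
  ε0 : 0 ≤ ε
  ε1 : ε < l * γ / 8

lemma van {Φ : Submodule ℝ X} {φ : X} {G : StrongDual ℝ X} (h1 : ∀ y ∈ Φ, G y = 0) (h2 : G φ = 0) :
    ∀ y ∈ Φ ⊔ span ℝ {φ}, G y = 0 := fun y hy => by
  obtain ⟨a, ha, b, hb, rfl⟩ := mem_sup.1 hy
  obtain ⟨r, rfl⟩ := mem_span_singleton.1 hb
  simp [h1 a ha, h2]

lemma mem2 {Φ : Submodule ℝ X} {φ x y : X} (hy : y ∈ Φ) (r : ℝ) (h : x = y + r • φ) :
    x ∈ Φ ⊔ span ℝ {φ} :=
  h ▸ add_mem (mem_sup_left hy) (mem_sup_right (smul_mem _ _ (mem_span_singleton_self φ)))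

lemma small {q : ℝ} (c0 : 0 < c) (c1 : c ≤ 1) (q0 : 0 < q) (q1 : q ≤ 1) :
    (4 / 5 * q) ^ 3 / (210 / c) ^ 2 ≤ q := by
  have h1 : 1 ≤ 210 / c := by rw [le_div_iff₀ c0]; linarith
  refine (div_le_self (by positivity) (one_le_pow₀ h1)).trans ?_
  have : q ^ 2 ≤ 1 := pow_le_one₀ q0.le q1
  nlinarith

lemma preA (c0 : 0 < c) (c1 : c ≤ 1) {f : X}
    {Φ : Submodule ℝ X} {S : Set (StrongDual ℝ X × ℝ)}
    {u t d v : X} {l β γ ε q : ℝ} {G : StrongDual ℝ X} (I : InvA H z c f Φ S u t d v l β γ ε q G)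
    {y0 : X} {F : StrongDual ℝ X} (y1 : y0 ∈ Φ) (F1 : ‖F‖ = 1) (F2 : F f = ‖f - y0‖) :
    q ≤ l ∧ ‖t‖ ≤ 1 + c / 20 * q ∧ (∀ x, F x ≤ ‖x‖) ∧ 1 + 3 / 4 * (l * γ) ≤ F f := by
  have l0 := I.l0
  have β0 : 0 < β := l0.trans_le I.lβ
  have ql : q ≤ l := by
    have h1 : l ^ 2 ≤ β ^ 2 := pow_le_pow_left₀ l0.le I.lβ 2
    have h2 : q * l ^ 2 ≤ l * l ^ 2 := by nlinarith [I.q1, I.q0]
    exact le_of_mul_le_mul_right h2 (by positivity)
  have nt : ‖t‖ ≤ 1 + c / 20 * q := I.nt.trans (by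
    gcongr; exact small c0 c1 I.q0 (ql.trans I.l1))
  have Fle : ∀ x, F x ≤ ‖x‖ := fun x => by simpa [F1] using (le_abs_self _).trans (F.le_opNorm x)
  have hL : 1 + 3 / 4 * (l * γ) ≤ F f := by
    have e1 := I.G0 _ I.r1
    simp only [map_sub, map_add, map_smul, I.Gu, I.Gd, smul_eq_mul] at e1
    have e2 : G (f - y0) ≤ (1 + ε) * ‖f - y0‖ := ((le_abs_self _).trans (G.le_opNorm _)).trans
      (mul_le_mul_of_nonneg_right I.Gn (norm_nonneg _))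
    rw [map_sub, I.G0 _ y1, ← F2] at e2
    have e3 : l * γ ≤ 1 := mul_le_one₀ I.l1 (by linarith [I.γ0]) (I.γ1.trans c1)
    have e4 : 0 < l * γ := mul_pos l0 (by linarith [I.γ0])
    by_contra! hc
    have e5 : (1 + ε) * F f ≤ (1 + l * γ / 8) * (1 + 3 / 4 * (l * γ)) :=
      mul_le_mul (by linarith [I.ε1]) hc.le (F2 ▸ norm_nonneg _) (by linarith)
    nlinarith
  exact ⟨ql, nt, Fle, hL⟩

lemma gearA (hD : DataA H z c) (c0 : 0 < c) (c1 : c ≤ 1) {f : X}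
    {Φ : Submodule ℝ X} {S : Set (StrongDual ℝ X × ℝ)} (hΦ : Φ.FG) (hS : S.Finite)
    {u t d v : X} {l β γ ε q : ℝ} {G : StrongDual ℝ X} (I : InvA H z c f Φ S u t d v l β γ ε q G)
    {y0 : X} {F : StrongDual ℝ X} (y1 : y0 ∈ Φ) (F1 : ‖F‖ = 1) (F2 : F f = ‖f - y0‖)
    (F3 : ∀ y ∈ Φ, F y = 0) (hβ : 7 * l < β) :
    ∃ φ, ‖φ‖ ≤ 8 ∧ c / 70 ≤ |F φ| ∧ (∀ p ∈ S, |p.1 φ| ≤ p.2) ∧
      ∃ u t d v l β γ ε q G,
        InvA H z c f (Φ ⊔ span ℝ {φ}) (insert (F, |F φ|) S) u t d v l β γ ε q G := by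
  have l0 := I.l0
  have β0 : 0 < β := l0.trans_le I.lβ
  obtain ⟨ql, nt, Fle, hL⟩ := preA c0 c1 I y1 F1 F2
  have key : ∀ p w : X, ‖p‖ ≤ 1 + c / 20 * q → f - (p + l • w) ∈ Φ → c / 10 ≤ F w := by
    intro p w h1 h2
    have e1 := F3 _ h2
    simp only [map_sub, map_add, map_smul, smul_eq_mul] at e1
    have e2 : l * (c / 5) ≤ l * γ := mul_le_mul_of_nonneg_left I.γ0 l0.le
    have e3 : c / 20 * q ≤ c / 20 * l := by gcongr
    have e4 : l * (c / 10) ≤ l * F w := by nlinarith [Fle p]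
    exact le_of_mul_le_mul_left e4 l0
  have x0 := key u d I.nu I.r1
  have fin : (insert F (Prod.fst '' S)).Finite := (hS.image _).insert _
  obtain ⟨d', G', γ', ε', a1, a2, a3, a4, a5, a6, a7, a8, a9, a10, a11, a12, a13⟩ :=
    extA hD c0 hΦ I.hΦ I.G0 I.Gz I.Gn I.ε0 I.ε1 I.γ0 (w := d + v) (by simp [I.Gd, I.Gv])
      (by simp [I.Hd, I.Hv]) (A := {u, t, v}) (toFinite _) fin
  have Fd : F d' = 0 := a3 F (mem_insert _ _)
  have pd : ∀ p ∈ S, p.1 d' = 0 := fun p hp => a3 _ (mem_insert_of_mem _ ⟨p, hp, rfl⟩)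
  have y : -(F d / 7) ≤ F v := by
    have e1 := F3 _ I.r1
    have e2 := F3 _ I.r2
    simp only [map_sub, map_add, map_smul, smul_eq_mul] at e1 e2
    have e3 : l * (c / 5) ≤ l * γ := mul_le_mul_of_nonneg_left I.γ0 l0.le
    have e4 : c / 20 * q ≤ c / 20 * l := by gcongr
    have e5 : -(l * F d) ≤ β * F v := by nlinarith [Fle t]
    have e6 : β * -(F d / 7) ≤ β * F v := by nlinarith
    exact le_of_mul_le_mul_left e6 β0
  have eφ : F (d + v - (4 / 5 : ℝ) • d') = F d + F v := by simp [Fd]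
  have T0 : |F (d + v - (4 / 5 : ℝ) • d')| = F d + F v := by
    rw [eφ, abs_of_nonneg (by linarith)]
  have Gu := a7 u (by simp) (I.Gu.trans I.Hu.symm)
  have Gt := a7 t (by simp) (I.Gt.trans I.Ht.symm)
  have Gv := a7 v (by simp) (I.Gv.trans I.Hv.symm)
  rw [I.Hu] at Gu
  rw [I.Ht] at Gt
  rw [I.Hv] at Gv
  have lb : l / β ≤ 1 := (div_le_one β0).2 I.lβ
  have lb0 : 0 ≤ l / β := by positivity
  refine ⟨d + v - (4 / 5 : ℝ) • d', ?_, by rw [T0]; linarith, fun p hp => ?_,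
    u - (l / β) • (u - t), t, d', (3 / 4 : ℝ) • ((4 / 5 : ℝ) • d' - d + v), 4 / 5 * l,
    (β - l) * (2 / 3), γ', ε', q, G', van I.hΦ (by simp [I.Hd, I.Hv, a1]), ?_, ?_, ?_,
    by simp [I.Hu, I.Ht], I.Ht, a1, by simp [I.Hd, I.Hv, a1], a2, ?_, by positivity,
    by linarith [I.l1], by linarith, a12, a13, I.q0, ?_, ?_, I.nt, van a4 a5,
    by simp [Gu, Gt], Gt, a8, a6, ?_, a9, a10, a11⟩
  · refine (norm_sub_le _ _).trans ?_
    rw [norm_smul, Real.norm_of_nonneg (by norm_num)]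
    linarith [norm_add_le d v, I.nd, I.nv]
  · simpa [pd p hp, (I.hS p hp).2.2.1] using (I.hS p hp).2.2.2
  · rintro p (rfl | hp)
    · refine ⟨F1.le, by rw [T0]; linarith, Fd, ?_⟩
      rw [T0]
      simp only [map_smul, map_add, map_sub, Fd, smul_eq_mul]
      rw [abs_le]
      constructor <;> linarith
    · obtain ⟨b1, b2, b3, b4⟩ := I.hS p hp
      refine ⟨b1, b2, pd p hp, ?_⟩
      simp only [map_smul, map_add, map_sub, pd p hp, b3, smul_eq_mul]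
      rw [abs_le] at b4 ⊢
      constructor <;> linarith [b4.1, b4.2]
  · refine mem2 (add_mem I.r1 (smul_mem _ (l / β) I.r2)) l ?_
    have : l / β * β = l := div_mul_cancel₀ _ β0.ne'
    rw [smul_sub (l / β) (u - t), smul_smul, this]
    module
  · refine mem2 (smul_mem _ (1 - l / β) I.r2) ((β - l) / 2) ?_
    have : (1 - l / β) * β = β - l := by field_simp
    rw [smul_sub (1 - l / β) (u - t), smul_smul (1 - l / β), this]
    module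
  · rw [norm_smul, Real.norm_of_nonneg (by norm_num)]
    have e1 := norm_add_le ((4 / 5 : ℝ) • d' - d) v
    have e2 := norm_sub_le ((4 / 5 : ℝ) • d') d
    rw [norm_smul, Real.norm_of_nonneg (by norm_num)] at e2
    linarith [I.nd, I.nv]
  · have e1 : (β - l) ^ 2 ≤ β ^ 2 := pow_le_pow_left₀ (by linarith) (by linarith) 2
    have e2 : q * (β - l) ^ 2 ≤ q * β ^ 2 := mul_le_mul_of_nonneg_left e1 I.q0.le
    have e3 : 0 < l ^ 3 := by positivity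
    nlinarith [I.q1]
  · rw [show u - (l / β) • (u - t) = (1 - l / β) • u + (l / β) • t by module]
    refine (norm_add_le _ _).trans ?_
    rw [norm_smul, norm_smul, Real.norm_of_nonneg lb0, Real.norm_of_nonneg (by linarith)]
    have e1 := mul_le_mul_of_nonneg_left I.nu (sub_nonneg.2 lb)
    have e2 := mul_le_mul_of_nonneg_left nt lb0
    linarith
  · simp only [map_smul, map_add, map_sub, Gv, smul_eq_mul] at a5 ⊢
    linarith

lemma switchA (hD : DataA H z c) (c0 : 0 < c) (c1 : c ≤ 1) (z1 : ‖z‖ = 1) (zH : z H = 1) {f : X}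
    {Φ : Submodule ℝ X} {S : Set (StrongDual ℝ X × ℝ)} (hΦ : Φ.FG) (hS : S.Finite)
    {u t d v : X} {l β γ ε q : ℝ} {G : StrongDual ℝ X} (I : InvA H z c f Φ S u t d v l β γ ε q G)
    {y0 : X} {F : StrongDual ℝ X} (y1 : y0 ∈ Φ) (F1 : ‖F‖ = 1) (F2 : F f = ‖f - y0‖)
    (F3 : ∀ y ∈ Φ, F y = 0) (hβ : ¬7 * l < β) :
    ∃ φ, ‖φ‖ ≤ 8 ∧ c / 70 ≤ |F φ| ∧ (∀ p ∈ S, |p.1 φ| ≤ p.2) ∧
      ∃ u t d v l β γ ε q G,
        InvA H z c f (Φ ⊔ span ℝ {φ}) (insert (F, |F φ|) S) u t d v l β γ ε q G := by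
  have l0 := I.l0
  have β0 : 0 < β := l0.trans_le I.lβ
  obtain ⟨ql, nt, Fle, hL⟩ := preA c0 c1 I y1 F1 F2
  have key : ∀ p w : X, ‖p‖ ≤ 1 + c / 20 * q → f - (p + l • w) ∈ Φ → c / 10 ≤ F w := by
    intro p w h1 h2
    have e1 := F3 _ h2
    simp only [map_sub, map_add, map_smul, smul_eq_mul] at e1
    have e2 : l * (c / 5) ≤ l * γ := mul_le_mul_of_nonneg_left I.γ0 l0.le
    have e3 : c / 20 * q ≤ c / 20 * l := by gcongr
    have e4 : l * (c / 10) ≤ l * F w := by nlinarith [Fle p]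
    exact le_of_mul_le_mul_left e4 l0
  have x0 := key u d I.nu I.r1
  have fin : (insert F (Prod.fst '' S)).Finite := (hS.image _).insert _
  have τ0 : 0 ≤ β / l := by positivity
  have τ1 : β / l ≤ 7 := by rw [div_le_iff₀ l0]; linarith
  have τ2 : l * (β / l) = β := by field_simp
  have r3 : f - (t + l • (d + (β / l) • v)) ∈ Φ := by
    convert add_mem I.r1 I.r2 using 1
    rw [smul_add, smul_smul, τ2]
    abel
  have x1 := key t _ nt r3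
  obtain ⟨d', G', γ', ε', a1, a2, a3, a4, a5, a6, a7, a8, a9, a10, a11, a12, a13⟩ :=
    extA hD c0 hΦ I.hΦ I.G0 I.Gz I.Gn I.ε0 I.ε1 I.γ0 (w := d + (β / l) • v)
      (by simp [I.Gd, I.Gv]) (by simp [I.Hd, I.Hv]) (A := {t}) (toFinite _) fin
  have Fd : F d' = 0 := a3 F (mem_insert _ _)
  have pd : ∀ p ∈ S, p.1 d' = 0 := fun p hp => a3 _ (mem_insert_of_mem _ ⟨p, hp, rfl⟩)
  have T0 : c / 70 ≤ |F ((1 / 7 : ℝ) • (d + (β / l) • v - (4 / 5 : ℝ) • d'))| := by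
    refine le_trans ?_ (le_abs_self _)
    rw [map_smul, map_sub, map_smul F (4 / 5 : ℝ), Fd, smul_zero, sub_zero, smul_eq_mul]
    linarith
  have Gt := a7 t rfl (I.Gt.trans I.Ht.symm)
  rw [I.Ht] at Gt
  have q0 : 0 < (4 / 5 * q) ^ 3 / (210 / c) ^ 2 := by have := I.q0; positivity
  have q1 := (small c0 c1 I.q0 (ql.trans I.l1)).trans (ql.trans I.l1)
  obtain ⟨t', t1, t2⟩ := helly z z1 (S := {H, G'}) (toFinite _)
    (δ := c / 20 * ((4 / 5 * ((4 / 5 * q) ^ 3 / (210 / c) ^ 2)) ^ 3 / (210 / c) ^ 2))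
    (by positivity)
  have t3 : H t' = 1 := (t2 H (by simp)).trans zH
  have t4 : G' t' = 1 := (t2 G' (by simp)).trans a8
  have nv : ‖(c / 210) • (t - t')‖ ≤ c / 70 := by
    rw [norm_smul, Real.norm_of_nonneg (by positivity)]
    have e1 := (small c0 c1 q0 q1).trans q1
    have e2 : ‖t'‖ ≤ 1 + c / 20 * 1 := t1.trans (by gcongr)
    have e3 : ‖t‖ ≤ 1 + c / 20 * 1 := nt.trans (by gcongr; exact ql.trans I.l1)
    have e4 : ‖t - t'‖ ≤ 3 := by linarith [norm_sub_le t t']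
    nlinarith
  have pv : ∀ g : StrongDual ℝ X, ‖g‖ ≤ 1 → |g ((c / 210) • (t - t'))| ≤ c / 70 := fun g hg =>
    (g.le_opNorm _).trans ((mul_le_of_le_one_left (norm_nonneg _) hg).trans nv)
  refine ⟨(1 / 7 : ℝ) • (d + (β / l) • v - (4 / 5 : ℝ) • d'), ?_, T0, fun p hp => ?_,
    t, t', d', (c / 210) • (t - t'), 4 / 5 * l, 210 / c, γ', ε',
    (4 / 5 * q) ^ 3 / (210 / c) ^ 2, G', van I.hΦ (by simp [I.Hd, I.Hv, a1]), ?_, ?_, ?_,
    I.Ht, t3, a1, by simp [I.Ht, t3], a2, by linarith, by positivity,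
    by linarith [I.l1], ?_, a12, a13, q0, ?_, I.nt, t1, van a4 (by rw [map_smul, a5, smul_zero]),
    Gt, t4, a8, a6, by simp [Gt, t4], a9, a10, a11⟩
  · rw [norm_smul, Real.norm_of_nonneg (by norm_num)]
    have e1 := norm_add_le d ((β / l) • v)
    have e2 := norm_sub_le (d + (β / l) • v) ((4 / 5 : ℝ) • d')
    rw [norm_smul, Real.norm_of_nonneg (by norm_num)] at e2
    rw [norm_smul, Real.norm_of_nonneg τ0] at e1
    linarith [I.nd, mul_le_mul τ1 I.nv (norm_nonneg v) (by norm_num)]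
  · obtain ⟨b1, b2, b3, b4⟩ := I.hS p hp
    simp only [map_smul, map_add, map_sub, pd p hp, b3, smul_eq_mul, mul_zero, sub_zero, zero_add,
      abs_mul, abs_of_nonneg τ0, abs_of_pos (show (0 : ℝ) < 1 / 7 by norm_num)]
    linarith [mul_le_mul_of_nonneg_right τ1 (abs_nonneg (p.1 v))]
  · rintro p (rfl | hp)
    · exact ⟨F1.le, T0, Fd, (pv F F1.le).trans T0⟩
    · obtain ⟨b1, b2, b3, b4⟩ := I.hS p hp
      exact ⟨b1, b2, pd p hp, (pv _ b1).trans b2⟩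
  · refine mem2 r3 (7 * l) ?_
    module
  · rw [smul_smul, show 210 / c * (c / 210) = 1 by field_simp, one_smul, sub_self]
    exact zero_mem _
  · rw [le_div_iff₀ c0]
    nlinarith [I.l1]
  · rw [div_mul_cancel₀ _ (by positivity)]
    have := I.q0
    gcongr

lemma caseA {τ : ℝ} (hτ : τ ≤ 1) (hD : DataA H z c) (c0 : 0 < c) (c1 : c ≤ 1) (H1 : ‖H‖ = 1)
    (z1 : ‖z‖ = 1) (zH : z H = 1) : ¬Conv X τ := by
  obtain ⟨G, d, G1, -, G2, d1, d2, d3, -⟩ := hD ⊥ fg_bot ∅ finite_empty (c / 16) (by positivity)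
  have q0 : 0 < 1 / (210 / c) ^ 2 := by positivity
  have h1 : 1 ≤ 210 / c := by rw [le_div_iff₀ c0]; linarith
  have q1 : 1 / (210 / c) ^ 2 ≤ 1 := div_le_one_of_le₀ (one_le_pow₀ h1) (by positivity)
  obtain ⟨u, u1, u2⟩ := helly z z1 (S := {H, G}) (toFinite _)
    (δ := c / 20 * ((4 / 5 * (1 / (210 / c) ^ 2)) ^ 3 / (210 / c) ^ 2)) (by positivity)
  have u3 : H u = 1 := (u2 H (by simp)).trans zH
  have u4 : G u = 1 := (u2 G (by simp)).trans G2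
  refine chain hτ (c := c / 70) (M := 8) (by positivity) (u + d)
    (fun Φ S => ∃ u' t d' v l β γ ε q G, InvA H z c (u + d) Φ S u' t d' v l β γ ε q G)
    ⟨u, u, d, 0, 1, 210 / c, c, c / 16, 1 / (210 / c) ^ 2, G, by simp, by simp, by simp, by simp,
      u3, u3, d3, by simp, d1, by simp, one_pos, le_rfl, h1, by linarith, le_rfl, q0,
      by rw [div_mul_cancel₀ _ (by positivity), one_pow],
      u1.trans (add_le_add_right (mul_le_mul_of_nonneg_left (small c0 c1 q0 q1) (by positivity)) _), u1, by simp, u4, u4, G2, d2, by simp, G1,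
      by positivity, by linarith⟩ ?_ ?_
  · rintro Φ S ⟨u', t, d', v, l, β, γ, ε, q, G, I⟩ y hy
    have := H.le_opNorm (u + d - y)
    simpa [u3, d3, I.hΦ y hy, H1] using this
  · rintro Φ S hΦ hS ⟨u', t, d', v, l, β, γ, ε, q, G, I⟩ y F y1 F1 F2 F3
    by_cases hβ : 7 * l < β
    · exact gearA hD c0 c1 hΦ hS I y1 F1 F2 F3 hβ
    · exact switchA hD c0 c1 z1 zH hΦ hS I y1 F1 F2 F3 hβ

end Pool.Agent.H.MP_dc5a1d_an
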