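import Pool.Agent.H.MP_dc5a1d_an.B

set_option autoImplicit false

namespace Pool.Agent.H.MP_dc5a1d_an

open Filter Topology Set Metric Submodule

variable {X : Type} [NormedAddCommGroup X] [NormedSpace ℝ X]

/-- functionals close to `H` on finite-dimensional subspaces and far from it at `z` -/
def DataB (H : StrongDual ℝ X) (z : StrongDual ℝ (StrongDual ℝ X)) (c : ℝ) : Prop :=
  ∀ E : Submodule ℝ X, E.FG → ∀ η : ℝ, 0 < η →
    ∃ F : StrongDual ℝ X, ‖F‖ ≤ 1 + η ∧ (∀ x ∈ E, F x = H x) ∧ z F ≤ 1 - c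

/-- pigeonhole property -/
def Q (K L ω : ℝ) : Prop :=
  ∀ ψ : ℝ → ℝ, ψ 1 ≤ ω → (∀ s, 0 ≤ s → L - 8 * s ≤ ψ s) → ∃ s δ, 0 < δ ∧ 0 < s ∧ s ≤ 1 ∧
    ψ s < δ ∧ K * δ ≤ ψ (s / 4) ∧ K * δ ≤ L ∧ L ≤ 16 * s

lemma exQ {K L : ℝ} (hK : 1 ≤ K) (hL : 0 < L) : ∃ ω, 0 < ω ∧ ω ≤ 1 ∧ Q K L ω := by
  have h : ∃ J : ℕ, (1 / 4 : ℝ) ^ J < L / 16 := exists_pow_lt_of_lt_one (by positivity) (by norm_num)
  classical
  have K0 : 0 < K := by linarith
  have h1 := Nat.find_spec h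
  set J := Nat.find h
  have w0 : 0 < min 1 (L / (4 * K ^ J)) := lt_min one_pos (by positivity)
  refine ⟨min 1 (L / (4 * K ^ J)), w0, min_le_left _ _, fun ψ p1 p2 => ?_⟩
  have w1 : min 1 (L / (4 * K ^ J)) * (4 * K ^ J) ≤ L :=
    (le_div_iff₀ (by positivity)).1 (min_le_right _ _)
  set ω := min 1 (L / (4 * K ^ J))
  by_contra! hc
  have key : ∀ k ≤ J, ψ ((1 / 4) ^ k) < 2 * ω * K ^ k := by
    intro k
    induction k with
    | zero => intro _; simp only [pow_zero]; linarith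
    | succ k ih =>
      intro hk
      by_contra! h2
      have h3 : K ^ (k + 1) ≤ K ^ J := pow_le_pow_right₀ hK hk
      have h4 := not_lt.1 (Nat.find_min h (m := k) hk)
      have := hc ((1 / 4) ^ k) (2 * ω * K ^ k) (by positivity) (by positivity)
        (pow_le_one₀ (by norm_num) (by norm_num)) (ih (by omega))
        (by rw [pow_succ, pow_succ, mul_one_div] at h2; linarith)
        (by rw [pow_succ] at h3; nlinarith)
      linarith
  have := (p2 _ (by positivity)).trans_lt (key J le_rfl)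
  nlinarith

/-- the invariant of the second construction -/
structure InvB (H : StrongDual ℝ X) (z : StrongDual ℝ (StrongDual ℝ X)) (c : ℝ) (f : X)
    (Φ : Submodule ℝ X) (S : Set (StrongDual ℝ X × ℝ)) (t p : X) (L ω κ : ℝ) : Prop where
  hΦ : ∀ y ∈ Φ, H y = 0
  hS : ∀ g ∈ S, |g.1 f - z g.1| ≤ g.2 ∧ g.1 t = z g.1
  Ht : H t = 1
  nt : ‖t‖ ≤ 1 + ω
  ω0 : 0 < ω
  ω1 : ω ≤ 1
  hQ : Q (400 / c) L ω
  L0 : 0 < L
  low : ∀ y ∈ Φ, 1 + L ≤ ‖f - y‖
  r : f - p - κ • (f - t) ∈ Φ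
  κ0 : 0 < κ
  np : ‖p‖ + c / 12 * κ ≤ 1 + L

variable {H : StrongDual ℝ X} {z : StrongDual ℝ (StrongDual ℝ X)} {c : ℝ}

lemma lowB (c0 : 0 < c) (c1 : c ≤ 1) {f R d e : X} {Φ : Submodule ℝ X} {s δ : ℝ} (δ0 : 0 < δ)
    (δ1 : δ ≤ 1) (e1 : e ∈ Φ) (h1 : ‖f - s • R - e‖ ≤ 1 + δ)
    (h2 : ∀ y ∈ Φ, 1 + 400 / c * δ ≤ ‖f - (s / 4) • R - y‖) (nd : ‖d‖ ≤ 4)
    {F : StrongDual ℝ X} (F1 : ‖F‖ ≤ 1 + δ / 3) (F2 : F f = 1) (F3 : F R = 0)
    (F4 : ∀ y ∈ Φ, F y = 0) (F5 : c ≤ F d) (σ : ℝ) {y : X} (hy : y ∈ Φ) :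
    1 + 2 * δ ≤ ‖f - σ • (s • R - (12 * δ / c) • d) - y‖ := by
  have k0 : 0 < 12 * δ / c := by positivity
  have k1 : 12 * δ / c * c = 12 * δ := by field_simp
  by_cases hσ : 1 / 4 ≤ σ
  · have a1 : F (f - σ • (s • R - (12 * δ / c) • d) - y) = 1 + σ * (12 * δ / c * F d) := by
      simp [F2, F3, F4 y hy]
    have a2 := (le_abs_self _).trans (F.le_opNorm (f - σ • (s • R - (12 * δ / c) • d) - y))
    have a3 : 12 * δ ≤ 12 * δ / c * F d := k1.symm.trans_le (mul_le_mul_of_nonneg_left F5 k0.le)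
    have a4 : 1 / 4 * (12 * δ) ≤ σ * (12 * δ / c * F d) :=
      mul_le_mul hσ a3 (by positivity) (by linarith)
    have a5 := mul_le_mul_of_nonneg_right F1
      (norm_nonneg (f - σ • (s • R - (12 * δ / c) • d) - y))
    by_contra! hc
    nlinarith
  · push Not at hσ
    have s0 : 0 < 1 - σ := by linarith
    obtain ⟨μ, hμ⟩ : ∃ μ, μ * (1 - σ) = 3 / 4 := ⟨_, div_mul_cancel₀ _ s0.ne'⟩
    have μ0 : 0 < μ := by nlinarith
    have μ1 : μ ≤ 1 := by nlinarith
    have a1 := h2 (μ • y + (1 - μ) • e) (add_mem (smul_mem _ _ hy) (smul_mem _ _ e1))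
    have a2 : f - (s / 4) • R - (μ • y + (1 - μ) • e) =
        μ • (f - (σ * s) • R - y) + (1 - μ) • (f - s • R - e) := by
      rw [show s / 4 = μ * (σ * s) + (1 - μ) * s by linear_combination s * hμ]
      module
    rw [a2] at a1
    have a3 := a1.trans (norm_add_le _ _)
    rw [norm_smul, norm_smul, Real.norm_of_nonneg μ0.le, Real.norm_of_nonneg (by linarith)] at a3
    have a4 := mul_le_mul_of_nonneg_left h1 (sub_nonneg.2 μ1)
    have a5 : ‖f - (σ * s) • R - y‖ ≤ ‖f - σ • (s • R - (12 * δ / c) • d) - y‖ +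
        |σ| * (12 * δ / c * 4) := by
      rw [show f - (σ * s) • R - y = f - σ • (s • R - (12 * δ / c) • d) - y -
        σ • (12 * δ / c) • d by module]
      refine (norm_sub_le _ _).trans ?_
      rw [norm_smul, norm_smul, Real.norm_of_nonneg k0.le, Real.norm_eq_abs]
      gcongr
    have a6 : μ * |σ| ≤ 3 / 4 := by
      rw [← hμ]
      gcongr
      rw [abs_le]
      constructor <;> linarith
    have a7 : δ ≤ δ / c := by rw [le_div_iff₀ c0]; nlinarith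
    have a8 : μ * (|σ| * (12 * δ / c * 4)) ≤ 36 * (δ / c) := by
      have := mul_le_mul_of_nonneg_right a6 (show 0 ≤ 48 * (δ / c) by positivity)
      calc _ = μ * |σ| * (48 * (δ / c)) := by ring
        _ ≤ _ := by linarith
    have a9 := mul_le_mul_of_nonneg_left a5 μ0.le
    have a10 : 400 / c * δ = 400 * (δ / c) := by ring
    have a11 : μ * δ ≤ δ := mul_le_of_le_one_left δ0.le μ1
    have : μ * (1 + 2 * δ) ≤ μ * ‖f - σ • (s • R - (12 * δ / c) • d) - y‖ := by nlinarith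
    exact le_of_mul_le_mul_left this μ0

lemma exB {s k : ℝ} (s0 : 0 < s) (k0 : 0 < k) (k1 : k ≤ s / 2) : ∃ B m, B * (s * (1 + k)) = k ∧
    0 < B ∧ B ≤ 1 / 2 ∧ m * (1 - B) = 1 ∧ 0 < m ∧ m ≤ 2 ∧ s * B ≤ k := by
  obtain ⟨B, hB⟩ : ∃ B, B * (s * (1 + k)) = k := ⟨_, div_mul_cancel₀ _ (by positivity)⟩
  have sk : 0 < s * (1 + k) := by positivity
  have B0 : 0 < B := by nlinarith
  have B1 : B ≤ 1 / 2 := by nlinarith [mul_pos s0 k0]
  obtain ⟨m, hm⟩ : ∃ m, m * (1 - B) = 1 := ⟨_, inv_mul_cancel₀ (by linarith)⟩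
  exact ⟨B, m, hB, B0, B1, hm, by nlinarith, by nlinarith,
    by nlinarith [mul_pos (mul_pos s0 B0) k0]⟩

lemma stepB (hD : DataB H z c) (c0 : 0 < c) (c1 : c ≤ 1) (z1 : ‖z‖ = 1) (zH : z H = 1) {f : X}
    (nf : ‖f‖ ≤ 6) (Hf : H f = 1) {Φ : Submodule ℝ X} {S : Set (StrongDual ℝ X × ℝ)} (hΦ : Φ.FG)
    (hS : S.Finite) {t0 p : X} {L ω κ : ℝ} (I : InvB H z c f Φ S t0 p L ω κ)
    {y0 : X} {F : StrongDual ℝ X} (y1 : y0 ∈ Φ) (F1 : ‖F‖ = 1) (F2 : F f = ‖f - y0‖)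
    (F3 : ∀ y ∈ Φ, F y = 0) : ∃ φ, ‖φ‖ ≤ 24 ∧ c / 12 ≤ |F φ| ∧ (∀ p ∈ S, |p.1 φ| ≤ p.2) ∧
      ∃ t p L ω κ, InvB H z c f (Φ ⊔ span ℝ {φ}) (insert (F, |F φ|) S) t p L ω κ := by
  have Fle : ∀ x, F x ≤ ‖x‖ := fun x => by simpa [F1] using (le_abs_self _).trans (F.le_opNorm x)
  have Ff : 1 + L ≤ F f := F2 ▸ I.low _ y1
  have zF : z F ≤ 1 := by simpa [F1, z1] using (le_abs_self _).trans (z.le_opNorm F)
  have fin : (insert H (insert F (Prod.fst '' S))).Finite := ((hS.image _).insert _).insert _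
  have x0 : c / 12 ≤ F f - F t0 := by
    have e1 := F3 _ I.r
    simp only [map_sub, map_smul, smul_eq_mul] at e1
    have e2 : κ * (c / 12) ≤ κ * (F f - F t0) := by nlinarith [Fle p, I.np]
    exact le_of_mul_le_mul_left e2 I.κ0
  obtain ⟨t, Ht, nt, St, x1, x2⟩ : ∃ t, H t = 1 ∧ ‖t‖ ≤ 1 + ω ∧ (∀ g ∈ S, g.1 t = z g.1) ∧
      c / 12 ≤ F f - F t ∧ F f - z F ≤ F f - F t := by
    by_cases h : F t0 ≤ z F
    · exact ⟨t0, I.Ht, I.nt, fun g hg => (I.hS g hg).2, x0, by linarith⟩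
    · obtain ⟨t, t1, t2⟩ := helly z z1 fin I.ω0
      have := t2 F (by simp)
      exact ⟨t, (t2 H (by simp)).trans zH, t1, fun g hg => t2 _ (Or.inr (Or.inr ⟨g, hg, rfl⟩)),
        by linarith, by linarith⟩
  have nR : ‖f - t‖ ≤ 8 := by linarith [norm_sub_le f t, I.ω1]
  choose e e1 e2 using fun s : ℝ => best hΦ (f - s • (f - t))
  obtain ⟨s, δ, δ0, s0, s1, b1, b2, b3, b4⟩ := I.hQ (fun s => ‖f - s • (f - t) - e s‖ - 1)
    (by have := e2 1 0 (zero_mem _); simp only [one_smul, sub_sub_cancel, sub_zero] at this ⊢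
        linarith)
    fun s hs => by
      have a1 := I.low _ (e1 s)
      have a2 := norm_add_le (f - s • (f - t) - e s) (s • (f - t))
      rw [show f - s • (f - t) - e s + s • (f - t) = f - e s by abel, norm_smul,
        Real.norm_of_nonneg hs] at a2
      have a3 := mul_le_mul_of_nonneg_left nR hs
      linarith
  have K1 : 400 ≤ 400 / c := by rw [le_div_iff₀ c0]; linarith
  have L5 : L ≤ 5 := by have := I.low 0 (zero_mem _); rw [sub_zero] at this; linarith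
  have δ1 : δ ≤ 1 := by linarith [mul_le_mul_of_nonneg_right K1 δ0.le]
  obtain ⟨F', G1, G2, G3⟩ := hD (Φ ⊔ span ℝ {f, t}) (hΦ.sup (fg_span (toFinite _))) (δ / 3)
    (by positivity)
  have G4 : F' f = 1 := (G2 f (mem_sup_right (subset_span (by simp)))).trans Hf
  have G5 : F' t = 1 := (G2 t (mem_sup_right (subset_span (by simp)))).trans Ht
  have G6 : ∀ y ∈ Φ, F' y = 0 := fun y hy => (G2 y (mem_sup_left hy)).trans (I.hΦ y hy)
  obtain ⟨ω', w0, w1, w2⟩ := exQ (K := 400 / c) (L := 2 * δ) (by linarith) (by positivity)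
  obtain ⟨t', t1, t2⟩ := helly z z1 (fin.insert F') w0
  have t3 : H t' = 1 := (t2 H (by simp)).trans zH
  have t4 : F t' = z F := t2 F (by simp)
  have t5 : F' t' = z F' := t2 F' (by simp)
  have t6 : ∀ g ∈ S, g.1 t' = z g.1 := fun g hg => t2 _ (Or.inr (Or.inr (Or.inr ⟨g, hg, rfl⟩)))
  obtain ⟨k, hk⟩ : ∃ k, k = 12 * δ / c := ⟨_, rfl⟩
  have k0 : 0 < k := by rw [hk]; positivity
  have k1 : k ≤ s / 2 := by
    have : k = 3 / 100 * (400 / c * δ) := by rw [hk]; ring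
    linarith
  obtain ⟨B, m, hB, B0, B1, hm, m0, m1, sB⟩ := exB s0 k0 k1
  have sk : 0 < s * (1 + k) := by positivity
  have val : ∀ g : StrongDual ℝ X, g (m • (f - t - B • (f - t'))) =
      m * (g f - g t - B * (g f - g t')) := fun g => by simp
  have T0 : F f - F t ≤ F (m • (f - t - B • (f - t'))) := by
    rw [val, t4]
    have : B * (F f - z F) ≤ B * (F f - F t) := mul_le_mul_of_nonneg_left x2 B0.le
    calc F f - F t = m * ((1 - B) * (F f - F t)) := by rw [← mul_assoc, hm, one_mul]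
      _ ≤ _ := mul_le_mul_of_nonneg_left (by linarith) m0.le
  have T1 := T0.trans (le_abs_self _)
  have rel : s • (f - t) - k • (f - s • (f - t) - e s - t') =
      k • e s + (s * (1 + k) * (1 - B)) • m • (f - t - B • (f - t')) := by
    rw [smul_smul, show s * (1 + k) * (1 - B) * m = s * (1 + k) by
      linear_combination s * (1 + k) * hm, smul_sub (s * (1 + k)), smul_smul,
      mul_comm (s * (1 + k)) B, hB]
    module
  refine ⟨m • (f - t - B • (f - t')), ?_, by linarith, fun g hg => ?_, t',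
    f - s • (f - t) - e s, 2 * δ, ω', s * B,
    van I.hΦ (by rw [val, Hf, Ht, t3]; ring), ?_, t3, t1, w0, w1, w2, by positivity,
    fun y hy => ?_, ?_, by positivity, ?_⟩
  · rw [norm_smul, Real.norm_of_nonneg m0.le]
    have a1 := norm_sub_le (f - t) (B • (f - t'))
    rw [norm_smul, Real.norm_of_nonneg B0.le] at a1
    have a2 : ‖f - t'‖ ≤ 8 := by linarith [norm_sub_le f t']
    have a3 := mul_le_mul B1 a2 (norm_nonneg _) (by norm_num)
    exact (mul_le_mul m1 (show _ ≤ (12 : ℝ) by linarith) (norm_nonneg _) (by norm_num)).trans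
      (by norm_num)
  · rw [val, St g hg, t6 g hg, show m * (g.1 f - z g.1 - B * (g.1 f - z g.1)) = g.1 f - z g.1 by
      linear_combination (g.1 f - z g.1) * hm]
    exact (I.hS g hg).1
  · rintro g (rfl | hg)
    · refine ⟨?_, t4⟩
      rw [abs_of_nonneg (by linarith [I.L0])]
      linarith
    · exact ⟨(I.hS g hg).1, t6 g hg⟩
  · obtain ⟨a, ha, b, hb, rfl⟩ := mem_sup.1 hy
    obtain ⟨r, rfl⟩ := mem_span_singleton.1 hb
    have n0 : s * (1 + k) * (1 - B) ≠ 0 := mul_ne_zero sk.ne' (by linarith)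
    have := lowB c0 c1 (d := f - s • (f - t) - e s - t') δ0 δ1 (e1 s) (by linarith)
      (fun y hy => by linarith [e2 (s / 4) y hy])
      (by linarith [norm_sub_le (f - s • (f - t) - e s) t']) G1 G4 (by simp [G4, G5]) G6
      (by simp only [map_sub, map_smul, G4, G5, G6 _ (e1 s), t5, smul_eq_mul]; linarith)
      (r / (s * (1 + k) * (1 - B)))
      (sub_mem ha (smul_mem _ (r / (s * (1 + k) * (1 - B)) * k) (e1 s)))
    rw [← hk, rel, smul_add, smul_smul _ (s * (1 + k) * (1 - B)), div_mul_cancel₀ _ n0] at this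
    convert this using 2
    module
  · refine mem2 (e1 s) (s * (1 - B)) ?_
    rw [smul_smul, show s * (1 - B) * m = s by linear_combination s * hm]
    module
  · have a1 : c / 12 * k = δ := by rw [hk]; field_simp
    have a2 : c / 12 * (s * B) ≤ c / 12 * k := by gcongr
    linarith

lemma caseB {τ : ℝ} (hτ : τ ≤ 1) (hD : DataB H z c) (c0 : 0 < c) (c1 : c ≤ 1)
    (z1 : ‖z‖ = 1) (zH : z H = 1) : ¬Conv X τ := by
  obtain ⟨u, u1, u2⟩ := helly z z1 (S := {H}) (toFinite _) (δ := c / 12) (by positivity)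
  have u3 : H u = 1 := (u2 H rfl).trans zH
  obtain ⟨F, F1, F2, F3⟩ := hD (span ℝ {u}) (fg_span_singleton u) (c / 36) (by positivity)
  have u4 : F u = 1 := (F2 u (mem_span_singleton_self u)).trans u3
  have K1 : 400 ≤ 400 / c := by rw [le_div_iff₀ c0]; linarith
  obtain ⟨ω, w0, w1, w2⟩ := exQ (K := 400 / c) (L := c / 6) (by linarith) (by positivity)
  obtain ⟨t, t1, t2⟩ := helly z z1 (S := {H, F}) (toFinite _) w0
  have t3 : H t = 1 := (t2 H (by simp)).trans zH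
  have t4 : F t = z F := t2 F (by simp)
  have nf : ‖u + (u - t)‖ ≤ 6 := by linarith [norm_add_le u (u - t), norm_sub_le u t]
  refine chain hτ (c := c / 12) (M := 24) (by positivity) (u + (u - t))
    (fun Φ S => ∃ t' p L ω κ, InvB H z c (u + (u - t)) Φ S t' p L ω κ)
    ⟨t, u, c / 6, ω, 1 / 2, by simp, by simp, t3, t1, w0, w1, w2, by positivity, ?_, ?_,
      by norm_num, by linarith⟩ ?_ ?_
  · rintro y rfl
    rw [sub_zero]
    have a1 := ((le_abs_self _).trans (F.le_opNorm (u + (u - t)))).trans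
      (mul_le_mul_of_nonneg_right F1 (norm_nonneg _))
    rw [map_add, map_sub, u4, t4] at a1
    by_contra! hc
    nlinarith
  · rw [Submodule.mem_bot]
    module
  · rintro Φ S ⟨t', p, L, ω, κ, I⟩ y hy
    linarith [I.low y hy, I.L0]
  · rintro Φ S hΦ hS ⟨t', p, L, ω, κ, I⟩ y F y1 F1 F2 F3
    exact stepB hD c0 c1 z1 zH nf (by simp [u3, t3]) hΦ hS I y1 F1 F2 F3

end Pool.Agent.H.MP_dc5a1d_an
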