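import Pool.Agent.H.MP_dc5a1d_an.C

set_option autoImplicit false

namespace Pool.Agent.H.MP_dc5a1d_an

open Filter Topology Set Metric Submodule

variable {X : Type} [NormedAddCommGroup X] [NormedSpace ℝ X]

lemma ulim {α W : Type} [NormedAddCommGroup W] [ProperSpace W] (U : Ultrafilter α) (f : α → W)
    {C : ℝ} (h : ∀ᶠ a in (U : Filter α), ‖f a‖ ≤ C) : ∃ y, Tendsto f U (𝓝 y) := by
  obtain ⟨y, -, hy⟩ := (isCompact_closedBall (0 : W) C).ultrafilter_le_nhds (U.map f)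
    (le_principal_iff.2 (h.mono fun m hm => mem_closedBall_zero_iff.2 hm))
  exact ⟨y, hy⟩

variable {H : StrongDual ℝ X} {z : StrongDual ℝ (StrongDual ℝ X)}

lemma exact_on {U : Filter (StrongDual ℝ X)} (hU : ∀ x, Tendsto (fun F => F x) U (𝓝 (H x)))
    (z : StrongDual ℝ (StrongDual ℝ X)) (hz : Tendsto z U (𝓝 (z H))) {E : Submodule ℝ X}
    (hE : E.FG) {η : ℝ} (hη : 0 < η) : ∀ᶠ F in U, ∃ k : StrongDual ℝ X, ‖k‖ ≤ η ∧
      (∀ x ∈ E, (F - k) x = H x) ∧ z (F - k) = z H := by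
  obtain ⟨s, rfl⟩ := hE
  let T : StrongDual ℝ X →ₗ[ℝ] (s → ℝ) × ℝ := LinearMap.prod
    (LinearMap.pi fun x => (NormedSpace.inclusionInDoubleDual ℝ X x.1).toLinearMap) z.toLinearMap
  have h1 : Tendsto (fun F => T (F - H)) U (𝓝 0) := by
    refine Tendsto.prodMk_nhds (tendsto_pi_nhds.2 fun x => ?_) ?_
    · simpa using (hU x.1).sub_const (H x.1)
    · simpa using hz.sub_const (z H)
  filter_upwards [corr T h1 hη] with F ⟨k, k1, k2⟩
  refine ⟨k, k2, fun x hx => ?_, ?_⟩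
  · refine LinearMap.eqOn_span (f := (F - k).toLinearMap) (g := H.toLinearMap) (fun y hy => ?_) hx
    have : k y = F y - H y := congrFun (congrArg Prod.fst k1) ⟨y, hy⟩
    change F y - k y = H y
    linarith
  · have : z k = z (F - H) := congrArg Prod.snd k1
    rw [map_sub, this, map_sub, sub_sub_cancel]

lemma not_conv {τ : ℝ} (hτ : τ ≤ 1) (H1 : ‖H‖ = 1) (U : Ultrafilter (StrongDual ℝ X)) {ε : ℝ}
    (ε0 : 0 < ε) (h1 : ∀ᶠ F in (U : Filter (StrongDual ℝ X)), ‖F‖ = 1 ∧ ε ≤ ‖F - H‖)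
    (hU : ∀ x, Tendsto (fun F : StrongDual ℝ X => F x) U (𝓝 (H x))) : ¬Conv X τ := by
  obtain ⟨z, z1, zH⟩ := exists_dual_vector ℝ H (by rw [H1]; exact one_ne_zero)
  replace zH : z H = 1 := by simpa [H1] using zH
  have zle : ∀ F, |z F| ≤ ‖F‖ := fun F => by simpa [z1] using z.le_opNorm F
  obtain ⟨ζ, hζ⟩ := ulim U z (C := 1) (h1.mono fun F hF => hF.1 ▸ zle F)
  have ζ1 : |ζ| ≤ 1 := le_of_tendsto hζ.abs (h1.mono fun F hF => hF.1 ▸ zle F)
  rw [abs_le] at ζ1
  rcases ζ1.2.lt_or_eq with h | h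
  · refine caseB hτ (H := H) (c := (1 - ζ) / 3) (fun E hE η hη => ?_) (by linarith) (by linarith)
      z1 zH
    obtain ⟨F, a1, a2, k, k1, k2, -⟩ := (h1.and ((hζ.eventually (gt_mem_nhds
      (show ζ < ζ + (1 - ζ) / 3 by linarith))).and (exact_on hU 0 tendsto_const_nhds hE
      (lt_min hη (show 0 < (1 - ζ) / 3 by linarith))))).exists
    refine ⟨F - k, ?_, k2, ?_⟩
    · linarith [norm_sub_le F k, min_le_left η ((1 - ζ) / 3), a1.1]
    · rw [map_sub]
      linarith [(abs_le.1 (zle k)).1, min_le_right η ((1 - ζ) / 3)]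
  have ε2 : ε ≤ 2 := by
    obtain ⟨F, a1, a2⟩ := h1.exists
    linarith [norm_sub_le F H]
  have : ∀ F : StrongDual ℝ X, ∃ y : X, ‖y‖ ≤ 1 ∧ (ε ≤ ‖F - H‖ → ε / 2 ≤ (F - H) y) := by
    intro F
    by_cases h : ε ≤ ‖F - H‖
    · obtain ⟨y, y1, y2⟩ := (F - H).exists_lt_apply_of_lt_opNorm (r := ε / 2) (by linarith)
      rcases le_abs.1 y2.le with h | h
      · exact ⟨y, y1.le, fun _ => h⟩
      · exact ⟨-y, by simpa using y1.le, fun _ => by rwa [map_neg]⟩
    · exact ⟨0, by simp, fun h' => (h h').elim⟩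
  choose y y1 y2 using this
  refine caseA hτ (H := H) (c := ε / 12) (fun E hE S hS η hη => ?_) (by linarith) (by linarith)
    H1 z1 zH
  have := (hS.insert H).fintype
  let T : X →ₗ[ℝ] (↥(insert H S) → ℝ) := LinearMap.pi fun g => g.1.toLinearMap
  obtain ⟨w, hw⟩ := ulim U (fun F => T (y F)) (C := ∑ g : ↥(insert H S), ‖g.1‖)
    (Eventually.of_forall fun F => (pi_norm_le_iff_of_nonneg (by positivity)).2 fun g =>
      (g.1.le_opNorm (y F)).trans ((mul_le_of_le_one_right (norm_nonneg _) (y1 F)).trans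
      (Finset.single_le_sum (f := fun g : ↥(insert H S) => ‖g.1‖) (fun _ _ => norm_nonneg _)
        (Finset.mem_univ g))))
  have h2 : Tendsto (fun a : StrongDual ℝ X × StrongDual ℝ X => T (y a.2 - y a.1))
      ((U : Filter _) ×ˢ (U : Filter _)) (𝓝 0) := by
    simpa only [map_sub, sub_self, Function.comp_apply] using
      (hw.comp tendsto_snd).sub (hw.comp tendsto_fst)
  obtain ⟨F0, h3⟩ := (corr T h2 (η := ε / 24) (by positivity)).curry.exists
  obtain ⟨F, a1, ⟨k, k1, k2⟩, a2, k', k3, k4, k5⟩ := (h1.and (h3.and (((hU (y F0)).eventually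
    (gt_mem_nhds (show H (y F0) < H (y F0) + ε / 24 by linarith))).and
    (exact_on hU z (by rw [zH, ← h]; exact hζ) hE
      (lt_min hη (show 0 < ε / 24 by positivity)))))).exists
  have b1 : ∀ g ∈ insert H S, g (y F - y F0 - k) = 0 := fun g hg => by
    have : g k = g (y F - y F0) := congrFun k1 ⟨g, hg⟩
    rw [map_sub, this, sub_self]
  have b2 : ‖y F - y F0 - k‖ ≤ 3 := by
    linarith [norm_sub_le (y F - y F0) k, norm_sub_le (y F) (y F0), y1 F, y1 F0]
  have b3 : ε / 4 ≤ (F - k') (y F - y F0 - k) := by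
    have c1 := y2 F a1.2
    have c2 := b1 H (mem_insert _ _)
    have c3 : |F k| ≤ ε / 24 := (F.le_opNorm k).trans (by rw [a1.1, one_mul]; exact k2)
    have c4 : |H k| ≤ ε / 24 := (H.le_opNorm k).trans (by rw [H1, one_mul]; exact k2)
    have c5 : |k' (y F - y F0 - k)| ≤ ε / 24 * 3 := (k'.le_opNorm _).trans
      (mul_le_mul (k3.trans (min_le_right _ _)) b2 (norm_nonneg _) (by positivity))
    rw [sub_apply] at c1 ⊢
    rw [abs_le] at c3 c4 c5
    rw [map_sub, map_sub] at c2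
    rw [map_sub F, map_sub F]
    linarith [c3.2, c4.1, c5.2]
  have b4 : 0 < (F - k') (y F - y F0 - k) := by linarith
  refine ⟨F - k', (ε / 12 / (F - k') (y F - y F0 - k)) • (y F - y F0 - k), ?_, k4, k5.trans zH, ?_,
    by rw [map_smul, smul_eq_mul, div_mul_cancel₀ _ b4.ne'],
    by rw [map_smul, b1 H (mem_insert _ _), smul_zero],
    fun g hg => by rw [map_smul, b1 g (mem_insert_of_mem _ hg), smul_zero]⟩
  · linarith [norm_sub_le F k', min_le_left η (ε / 24), a1.1]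
  · rw [norm_smul, Real.norm_of_nonneg (by positivity), div_mul_eq_mul_div, div_le_one b4]
    nlinarith

lemma kadec_of_conv {τ : ℝ} (hτ : τ ≤ 1) (h : Conv X τ) :
    ContinuousOn (fun F : WeakDual ℝ X => WeakDual.toStrongDual F)
      {F | ‖WeakDual.toStrongDual F‖ = 1} := by
  intro H hH
  by_contra hc
  rw [ContinuousWithinAt, Metric.tendsto_nhds] at hc
  push Not at hc
  obtain ⟨ε, ε0, h1⟩ := hc
  obtain ⟨U, hU⟩ := exists_ultrafilter_le _ (h := frequently_iff_neBot.1 h1)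
  have a1 := hU.trans inf_le_left
  have a2 := le_principal_iff.1 (hU.trans inf_le_right)
  refine not_conv hτ hH (U.map WeakDual.toStrongDual) ε0 ?_ (fun x => ?_) h
  · change ∀ᶠ F in (U : Filter (WeakDual ℝ X)), _
    filter_upwards [a1 self_mem_nhdsWithin, a2] with F b1 b2
    exact ⟨b1, by rwa [← dist_eq_norm]⟩
  · exact ((WeakDual.eval_continuous x).tendsto H).mono_left (a1.trans nhdsWithin_le_nhds)

lemma smooth_of_conv {τ : ℝ} (hτ : τ ≤ 1) (h : Conv X τ) (x : X) (hx : x ≠ 0)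
    (F F' : StrongDual ℝ X) (F1 : ‖F‖ = 1) (F2 : ‖F'‖ = 1) (F3 : F x = ‖x‖) (F4 : F' x = ‖x‖) :
    F = F' := by
  by_contra hc
  have n0 : 0 < ‖x‖ := norm_pos_iff.2 hx
  obtain ⟨v, hv⟩ : ∃ v, F v ≠ F' v := by
    by_contra! h; exact hc (ContinuousLinearMap.ext h)
  obtain ⟨w, w1, w2⟩ : ∃ w, F' w = 0 ∧ F w ≠ 0 := ⟨v - (F' v / ‖x‖) • x, by simp [F4, n0.ne'],
    by simpa [F3, n0.ne', sub_eq_zero] using hv⟩
  have w0 : 0 < ‖w‖ := norm_pos_iff.2 fun h => w2 (by simp [h])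
  have := h (insert (‖w‖⁻¹ • w) {g | ‖g‖ = 1 ∧ F g = 0}) (by
    rintro g (rfl | hg)
    exacts [by rw [norm_smul, norm_inv, norm_norm, inv_mul_cancel₀ w0.ne'], hg.1]) (by
    have a1 : w ∈ span ℝ (insert (‖w‖⁻¹ • w) {g | ‖g‖ = 1 ∧ F g = 0}) :=
      (smul_mem_iff _ (inv_ne_zero w0.ne')).1 (subset_span (Or.inl rfl))
    have a2 : ∀ y, F y = 0 → y ∈ span ℝ (insert (‖w‖⁻¹ • w) {g | ‖g‖ = 1 ∧ F g = 0}) := by
      intro y hy
      by_cases y0 : y = 0
      · rw [y0]; exact zero_mem _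
      have y1 := norm_ne_zero_iff.2 y0
      exact (smul_mem_iff _ (inv_ne_zero y1)).1 (subset_span (Or.inr
        ⟨by rw [norm_smul, norm_inv, norm_norm, inv_mul_cancel₀ y1], by simp [hy]⟩))
    have : span ℝ (insert (‖w‖⁻¹ • w) {g | ‖g‖ = 1 ∧ F g = 0}) = ⊤ := eq_top_iff.2 fun y _ => by
      have a6 := add_mem (a2 (y - (F y / F w) • w) (by simp [w2])) (smul_mem _ (F y / F w) a1)
      rwa [sub_add_cancel] at a6
    rw [this]
    exact dense_univ) x (fun _ => ‖w‖⁻¹ • w) (fun _ => 0) (fun _ => F) rfl fun m =>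
      ⟨by simpa using hx, F1, by simpa using F3, Or.inl rfl, ?_, zero_mem _, fun y hy => ?_⟩
  · simp only [sub_zero] at this
    exact n0.ne' (tendsto_nhds_unique tendsto_const_nhds this)
  · rintro g (rfl | hg)
    · exact mul_le_of_le_one_left (abs_nonneg _) hτ
    · rw [hg.2, abs_zero, mul_zero]
      exact abs_nonneg _
  · have a1 : F' y = 0 := by
      refine LinearMap.eqOn_span (f := F'.toLinearMap) (g := 0) ?_ hy
      rintro _ ⟨j, -, rfl⟩
      simp [w1]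
    have a2 := (le_abs_self _).trans (F'.le_opNorm (x - y))
    rw [map_sub, a1, F4, F2, one_mul] at a2
    simpa using a2

lemma conv_of {τ : ℝ} (hτ : 0 < τ) (h1 : ∀ x : X, x ≠ 0 → ∀ F F' : StrongDual ℝ X, ‖F‖ = 1 →
      ‖F'‖ = 1 → F x = ‖x‖ → F' x = ‖x‖ → F = F')
    (h2 : ContinuousOn (fun F : WeakDual ℝ X => WeakDual.toStrongDual F)
      {F | ‖WeakDual.toStrongDual F‖ = 1}) : Conv X τ := by
  intro D D1 D2 f φ G F G0 h
  choose k1 k2 k3 k4 k5 k6 k7 using h
  have mono : ∀ {m n}, m ≤ n → span ℝ (φ '' Iic m) ≤ span ℝ (φ '' Iic n) := fun h =>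
    span_mono (image_mono (Iic_subset_Iic.2 h))
  have anti : Antitone fun m => ‖f - G m‖ := antitone_nat_of_succ_le fun m => k7 m _ (by
    rcases m with _ | m
    · rw [G0]; exact zero_mem _
    · exact mono m.le_succ (k6 m))
  have lim := tendsto_atTop_ciInf anti ⟨0, by rintro _ ⟨m, rfl⟩; exact norm_nonneg _⟩
  set α := ⨅ m, ‖f - G m‖
  have α0 : 0 ≤ α := ge_of_tendsto' lim fun m => norm_nonneg _
  rcases α0.eq_or_lt with h | h
  · rwa [h]
  exfalso
  have orth : ∀ m, ∀ y ∈ span ℝ (φ '' Iic m), F (m + 1) y = 0 := fun m => by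
    obtain ⟨F', a1, a2, a3⟩ := norming (k6 m) (k7 m) (k1 _)
    rw [h1 _ (k1 _) _ _ (k2 _) a1 (k3 _) a2]
    exact a3
  obtain ⟨H, H1, H2⟩ := (WeakDual.isCompact_closedBall (0 : StrongDual ℝ X) 1).ultrafilter_le_nhds
    ((hyperfilter ℕ).map fun m => StrongDual.toWeakDual (F (m + 1))) (le_principal_iff.2 (by
      change ∀ᶠ m in (hyperfilter ℕ : Filter ℕ), _
      exact Eventually.of_forall fun m => mem_closedBall_zero_iff.2 (k2 (m + 1)).le))
  have H3 : ∀ x, Tendsto (fun m => F (m + 1) x) (hyperfilter ℕ) (𝓝 (WeakDual.toStrongDual H x)) :=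
    fun x => ((WeakDual.eval_continuous x).tendsto H).comp H2
  have H4 : ∀ m, ∀ y ∈ span ℝ (φ '' Iic m), WeakDual.toStrongDual H y = 0 := fun m y hy =>
    tendsto_nhds_unique (H3 y) (tendsto_const_nhds.congr' (Nat.hyperfilter_le_atTop
      ((eventually_ge_atTop m).mono fun n hn => (orth n y (mono hn hy)).symm)))
  have lim1 := (lim.comp (tendsto_add_atTop_nat 1))
  have H5 : WeakDual.toStrongDual H f = α := by
    refine tendsto_nhds_unique (H3 f) ((lim1.mono_left Nat.hyperfilter_le_atTop).congr fun m => ?_)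
    have := k3 (m + 1)
    rw [map_sub, orth m _ (k6 m), sub_zero] at this
    exact this.symm
  have H6 : ‖WeakDual.toStrongDual H‖ = 1 := by
    refine (mem_closedBall_zero_iff.1 H1).antisymm ?_
    have := ge_of_tendsto' (lim1.const_mul ‖WeakDual.toStrongDual H‖) (b := α) fun m => by
      have := (le_abs_self _).trans ((WeakDual.toStrongDual H).le_opNorm (f - G (m + 1)))
      rwa [map_sub, H4 m _ (k6 m), sub_zero, H5] at this
    exact (le_mul_iff_one_le_left h).1 this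
  have H7 : Tendsto (fun m => F (m + 1)) (hyperfilter ℕ) (𝓝 (WeakDual.toStrongDual H)) :=
    (h2 H H6).tendsto.comp (tendsto_nhdsWithin_iff.2 ⟨H2, Eventually.of_forall fun m => k2 _⟩)
  have H8 : ∀ g ∈ D, WeakDual.toStrongDual H g = 0 := fun g hg => by
    have a1 := le_of_tendsto_of_tendsto' ((H3 g).abs.const_mul τ)
      (tendsto_iff_norm_sub_tendsto_zero.1 H7) fun m => (k5 (m + 1) g hg).trans (by
        have := (F (m + 1) - WeakDual.toStrongDual H).le_opNorm (φ (m + 1))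
        rwa [D1 _ (k4 _), mul_one, sub_apply, H4 (m + 1) _ (subset_span ⟨_, mem_Iic.2 le_rfl, rfl⟩),
          sub_zero] at this)
    exact abs_nonpos_iff.1 (nonpos_of_mul_nonpos_right a1 hτ)
  have : WeakDual.toStrongDual H = 0 := ContinuousLinearMap.ext_on D2 H8
  rw [this, norm_zero] at H6
  exact zero_ne_one H6

end Pool.Agent.H.MP_dc5a1d_an
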